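import Pool.Agent.R950.PSC

/-!
# MP_57f692_ag: `Pos(K)` for `[0, 2^(1/3)]`, `[√2, √3]`, `[-2^(1/4), 2^(1/4)]`

All three preorderings are finitely generated, by the obvious generators, and
`x - 1` lies in the preordering generated by `x, x^2 - 2, 3 - x^2`.

Definitions (file `Pool/Agent/R950/PSC.lean`):
* `Sos`: finite sums of `a h^2`, `a` a nonnegative rational, `h` in `ℚ[x]`;
* `Preord S` (`S` a finite set of polynomials): the sums over the subsets `e` of `S` of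
  `σ_e * ∏ g in e, g` with `σ_e` in `Sos`;
* `Pos K` (`K` a set of reals): the `f` in `ℚ[x]` with `f(t) ≥ 0` for all `t` in `K`.
-/

open Polynomial Pool.Agent.R950.PS

namespace Pool.Agent.Results.MP_57f692_ag.AllThreeFinitelyGenerated

/-- The basic closed set `K_S`. -/
def KS (S : Finset ℚ[X]) : Set ℝ := {t | ∀ g ∈ S, 0 ≤ aeval t g}

/-- `Pos(K)` is a finitely generated preordering. -/
def FinGen (K : Set ℝ) : Prop := ∃ S : Finset ℚ[X], Pos K = Preord S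

lemma root3 : ((2 : ℝ) ^ ((1 : ℝ) / 3)) ^ 3 = 2 := by
  rw [← Real.rpow_natCast, ← Real.rpow_mul (by norm_num)]
  norm_num

lemma root4 : ((2 : ℝ) ^ ((1 : ℝ) / 4)) ^ 4 = 2 := by
  rw [← Real.rpow_natCast, ← Real.rpow_mul (by norm_num)]
  norm_num

/-- a general wrapper -/
lemma main (S : Finset ℚ[X]) {a b : ℝ} (hab : a < b) (hKS : KS S = Set.Icc a b) {N : ℚ}
    (hN : 0 < N) (h1 : C N + X ∈ Preord S) (h2 : C N - X ∈ Preord S)
    (hend : ∀ c : ℝ, c = a ∨ c = b → ∃ g ∈ S, 0 < g.natDegree ∧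
      ∀ f : ℚ[X], aeval c f = 0 → g ∣ f) :
    Pos (Set.Icc a b) = Preord S := by
  apply Set.Subset.antisymm
  · have := saturated (preordSR S) (fun a ha => sos_preord (const_mem ha))
      (fun p => sos_preord (sq_mem p)) hN h1 h2 S (fun g hg => gen_preord hg) hab
      (fun t _ ht => by rw [← hKS]; exact ht)
      (fun g hg t ht => by rw [← hKS] at ht; exact ht g hg) hend
    exact this
  · apply preord_le_pos
    intro t ht g hg
    rw [← hKS] at ht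
    exact ht g hg

lemma ks1 : KS {X, 2 - X ^ 3} = Set.Icc 0 ((2 : ℝ) ^ ((1 : ℝ) / 3)) := by
  have hc : (0 : ℝ) ≤ (2 : ℝ) ^ ((1 : ℝ) / 3) := by positivity
  have h3 := root3
  ext t
  simp only [KS, Set.mem_ofPred_eq, Finset.mem_insert, Finset.mem_singleton, forall_eq_or_imp,
    forall_eq, Set.mem_Icc, aeval_X, map_sub, map_pow, map_ofNat]
  constructor
  · rintro ⟨h0, h1⟩
    refine ⟨h0, ?_⟩
    by_contra hlt
    rw [not_le] at hlt
    have := pow_lt_pow_left₀ hlt hc (by norm_num : 3 ≠ 0)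
    linarith
  · rintro ⟨h0, h1⟩
    refine ⟨h0, ?_⟩
    have := pow_le_pow_left₀ h0 h1 3
    linarith

lemma ks2 : KS {X, X ^ 2 - 2, 3 - X ^ 2} = Set.Icc (√2) (√3) := by
  ext t
  simp only [KS, Set.mem_ofPred_eq, Finset.mem_insert, Finset.mem_singleton, forall_eq_or_imp,
    forall_eq, Set.mem_Icc, aeval_X, map_sub, map_pow, map_ofNat]
  constructor
  · rintro ⟨h0, h1, h2⟩
    exact ⟨Real.sqrt_le_iff.2 ⟨h0, by linarith⟩, Real.le_sqrt_of_sq_le (by linarith)⟩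
  · rintro ⟨h1, h2⟩
    have h0 : 0 ≤ t := le_trans (Real.sqrt_nonneg 2) h1
    have h3 := (Real.sqrt_le_iff.1 h1).2
    have h4 := (Real.le_sqrt h0 (by norm_num)).1 h2
    exact ⟨h0, by linarith, by linarith⟩

lemma ks3 : KS {2 - X ^ 4} = Set.Icc (-(2 : ℝ) ^ ((1 : ℝ) / 4)) ((2 : ℝ) ^ ((1 : ℝ) / 4)) := by
  have hc : (0 : ℝ) ≤ (2 : ℝ) ^ ((1 : ℝ) / 4) := by positivity
  have h4 := root4
  ext t
  simp only [KS, Set.mem_ofPred_eq, Finset.mem_singleton,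
    forall_eq, Set.mem_Icc, aeval_X, map_sub, map_pow, map_ofNat]
  rw [← abs_le]
  have e : t ^ 4 = |t| ^ 4 := by
    rw [show |t| ^ 4 = (|t| ^ 2) ^ 2 by ring, sq_abs]; ring
  constructor
  · intro h1
    by_contra hlt
    rw [not_le] at hlt
    have := pow_lt_pow_left₀ hlt hc (by norm_num : 4 ≠ 0)
    linarith
  · intro h1
    have := pow_le_pow_left₀ (abs_nonneg t) h1 4
    linarith

lemma X_dvd_of_zero (f : ℚ[X]) (hf : aeval (0 : ℝ) f = 0) : (X : ℚ[X]) ∣ f := by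
  rw [X_dvd_iff]
  rw [aeval_def, eval₂_at_zero] at hf
  exact (map_eq_zero _).1 hf

lemma deg_sub (n : ℕ) (_ : 0 < n) (a : ℚ) : (C a - X ^ n : ℚ[X]).natDegree = n := by
  rw [← neg_sub, natDegree_neg]
  exact natDegree_X_pow_sub_C

lemma dvd' {n p : ℕ} (hn : 0 < n) (hp : p.Prime) {c : ℝ} (hc : c ^ n = p) (f : ℚ[X])
    (hf : aeval c f = 0) : (C (p : ℚ) - X ^ n : ℚ[X]) ∣ f := by
  have := dvd_of_root hn hp hc f hf
  rw [← neg_sub, neg_dvd]
  exact this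

lemma C2 : (2 : ℚ[X]) = C ((2 : ℕ) : ℚ) := by rw [Nat.cast_ofNat]; rfl
lemma C3 : (3 : ℚ[X]) = C ((3 : ℕ) : ℚ) := by rw [Nat.cast_ofNat]; rfl

theorem pos1 : Pos (Set.Icc 0 ((2 : ℝ) ^ ((1 : ℝ) / 3))) = Preord {X, 2 - X ^ 3} := by
  have gX : (X : ℚ[X]) ∈ Preord {X, 2 - X ^ 3} := gen_preord (by simp)
  have g2 : (2 - X ^ 3 : ℚ[X]) ∈ Preord {X, 2 - X ^ 3} := gen_preord (by simp)
  apply main {X, 2 - X ^ 3} (by positivity) ks1 (N := 5 / 2) (by norm_num)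
  · exact preord_add (sos_preord (const_mem (by norm_num))) gX
  · have e : (C (5 / 2) - X : ℚ[X]) =
        (2 - X ^ 3) + (X * (X - 1) ^ 2 + C 2 * (X - C (1 / 2)) ^ 2) := by
      have e1 : (C (5 / 2) : ℚ[X]) = 2 + C (1 / 2) := by
        rw [show (5 / 2 : ℚ) = 2 + 1 / 2 by norm_num, C_add]; rfl
      have e2 : (C (1 / 2) : ℚ[X]) * 2 = 1 := by
        rw [show (2 : ℚ[X]) = C 2 from rfl, ← C_mul]; norm_num
      rw [e1]
      have e3 : (C 2 : ℚ[X]) = 2 := rfl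
      rw [e3]
      linear_combination (2 * X - C (1 / 2)) * e2
    rw [e]
    exact preord_add g2 (preord_add (preord_mul gX (sos_preord (sq_mem _)))
      (preord_mul (sos_preord (const_mem (by norm_num))) (sos_preord (sq_mem _))))
  · rintro c (rfl | rfl)
    · exact ⟨X, by simp, by simp, X_dvd_of_zero⟩
    · refine ⟨2 - X ^ 3, by simp, ?_, ?_⟩
      · rw [C2, deg_sub 3 (by norm_num)]; norm_num
      · intro f hf
        have := dvd' (by norm_num : 0 < 3) Nat.prime_two (c := (2 : ℝ) ^ ((1 : ℝ) / 3))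
          (by rw [root3]; norm_num) f hf
        rw [C2]; exact this

theorem pos2 : Pos (Set.Icc (√2) (√3)) = Preord {X, X ^ 2 - 2, 3 - X ^ 2} := by
  have gX : (X : ℚ[X]) ∈ Preord {X, X ^ 2 - 2, 3 - X ^ 2} := gen_preord (by simp)
  have g3 : (3 - X ^ 2 : ℚ[X]) ∈ Preord {X, X ^ 2 - 2, 3 - X ^ 2} := gen_preord (by simp)
  apply main {X, X ^ 2 - 2, 3 - X ^ 2} (Real.sqrt_lt_sqrt (by norm_num) (by norm_num)) ks2
    (N := 4) (by norm_num)
  · exact preord_add (sos_preord (const_mem (by norm_num))) gX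
  · have e : (C 4 - X : ℚ[X]) =
        (3 - X ^ 2) + ((X - C (1 / 2)) ^ 2 + C (3 / 4)) := by
      have e1 : (C 4 : ℚ[X]) = 4 := rfl
      have e2 : (C (1 / 2) : ℚ[X]) * 2 = 1 := by
        rw [show (2 : ℚ[X]) = C 2 from rfl, ← C_mul]; norm_num
      have e3 : (C (1 / 2) : ℚ[X]) ^ 2 + C (3 / 4) = 1 := by
        rw [← C_pow, ← C_add]; norm_num
      rw [e1]
      linear_combination (X : ℚ[X]) * e2 - e3
    rw [e]
    exact preord_add g3 (preord_add (sos_preord (sq_mem _)) (sos_preord (const_mem (by norm_num))))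
  · rintro c (rfl | rfl)
    · refine ⟨X ^ 2 - 2, by simp, ?_, ?_⟩
      · rw [C2, natDegree_X_pow_sub_C]; norm_num
      · intro f hf
        have := dvd_of_root (by norm_num : 0 < 2) Nat.prime_two (c := √2)
          (by rw [Real.sq_sqrt (by norm_num)]; norm_num) f hf
        rw [C2]; exact this
    · refine ⟨3 - X ^ 2, by simp, ?_, ?_⟩
      · rw [C3, deg_sub 2 (by norm_num)]; norm_num
      · intro f hf
        have := dvd' (by norm_num : 0 < 2) Nat.prime_three (c := √3)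
          (by rw [Real.sq_sqrt (by norm_num)]; norm_num) f hf
        rw [C3]; exact this

theorem pos3 : Pos (Set.Icc (-(2 : ℝ) ^ ((1 : ℝ) / 4)) ((2 : ℝ) ^ ((1 : ℝ) / 4))) =
    Preord {2 - X ^ 4} := by
  have g2 : (2 - X ^ 4 : ℚ[X]) ∈ Preord {2 - X ^ 4} := gen_preord (by simp)
  have hc : (0 : ℝ) < (2 : ℝ) ^ ((1 : ℝ) / 4) := by positivity
  have e2 : (C (1 / 2) : ℚ[X]) * 2 = 1 := by
    rw [show (2 : ℚ[X]) = C 2 from rfl, ← C_mul]; norm_num
  have e1 : (C (5 / 2) : ℚ[X]) = 2 + C (1 / 2) := by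
    rw [show (5 / 2 : ℚ) = 2 + 1 / 2 by norm_num, C_add]; rfl
  have e3 : (C (1 / 2) : ℚ[X]) ^ 2 + C (1 / 4) = C (1 / 2) := by
    rw [← C_pow, ← C_add]; norm_num
  apply main {2 - X ^ 4} (by linarith) ks3 (N := 5 / 2) (by norm_num)
  · have e : (C (5 / 2) + X : ℚ[X]) =
        (2 - X ^ 4) + ((X ^ 2 - C (1 / 2)) ^ 2 + (X + C (1 / 2)) ^ 2) := by
      rw [e1]
      linear_combination (X ^ 2 - X - C (1 / 2)) * e2
    rw [e]
    exact preord_add g2 (preord_add (sos_preord (sq_mem _)) (sos_preord (sq_mem _)))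
  · have e : (C (5 / 2) - X : ℚ[X]) =
        (2 - X ^ 4) + ((X ^ 2 - C (1 / 2)) ^ 2 + (X - C (1 / 2)) ^ 2) := by
      rw [e1]
      linear_combination (X ^ 2 + X - C (1 / 2)) * e2
    rw [e]
    exact preord_add g2 (preord_add (sos_preord (sq_mem _)) (sos_preord (sq_mem _)))
  · have hend : ∀ c : ℝ, c ^ 4 = 2 → ∃ g ∈ ({2 - X ^ 4} : Finset ℚ[X]), 0 < g.natDegree ∧
        ∀ f : ℚ[X], aeval c f = 0 → g ∣ f := by
      intro c hc4
      refine ⟨2 - X ^ 4, by simp, ?_, ?_⟩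
      · rw [C2, deg_sub 4 (by norm_num)]; norm_num
      · intro f hf
        have := dvd' (by norm_num : 0 < 4) Nat.prime_two (c := c)
          (by rw [hc4]; norm_num) f hf
        rw [C2]; exact this
    rintro c (rfl | rfl)
    · exact hend _ (by rw [Even.neg_pow (by decide), root4])
    · exact hend _ root4

lemma xm1 : (X - 1 : ℚ[X]) ∈ Preord {X, X ^ 2 - 2, 3 - X ^ 2} := by
  rw [← pos2]
  intro t ht
  rw [map_sub, aeval_X, map_one]
  have h1 : (1 : ℝ) ≤ √2 := by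
    rw [Real.le_sqrt (by norm_num) (by norm_num)]; norm_num
  linarith [ht.1]

/-- **Full answer to Q1 of MP_57f692_ag**: all three preorderings are finitely generated,
and `x - 1` is in the preordering generated by `x, x^2 - 2, 3 - x^2`. -/
theorem result :
    (KS {X, 2 - X ^ 3} = Set.Icc 0 ((2 : ℝ) ^ ((1 : ℝ) / 3)) ∧
      Pos (Set.Icc 0 ((2 : ℝ) ^ ((1 : ℝ) / 3))) = Preord {X, 2 - X ^ 3} ∧
      FinGen (Set.Icc 0 ((2 : ℝ) ^ ((1 : ℝ) / 3)))) ∧
    (KS {X, X ^ 2 - 2, 3 - X ^ 2} = Set.Icc (√2) (√3) ∧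
      Pos (Set.Icc (√2) (√3)) = Preord {X, X ^ 2 - 2, 3 - X ^ 2} ∧
      FinGen (Set.Icc (√2) (√3))) ∧
    (KS {2 - X ^ 4} = Set.Icc (-(2 : ℝ) ^ ((1 : ℝ) / 4)) ((2 : ℝ) ^ ((1 : ℝ) / 4)) ∧
      Pos (Set.Icc (-(2 : ℝ) ^ ((1 : ℝ) / 4)) ((2 : ℝ) ^ ((1 : ℝ) / 4))) = Preord {2 - X ^ 4} ∧
      FinGen (Set.Icc (-(2 : ℝ) ^ ((1 : ℝ) / 4)) ((2 : ℝ) ^ ((1 : ℝ) / 4)))) ∧
    (X - 1 : ℚ[X]) ∈ Preord {X, X ^ 2 - 2, 3 - X ^ 2} :=
  ⟨⟨ks1, pos1, _, pos1⟩, ⟨ks2, pos2, _, pos2⟩, ⟨ks3, pos3, _, pos3⟩, xm1⟩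

end Pool.Agent.Results.MP_57f692_ag.AllThreeFinitelyGenerated
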